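import Pool.Agent.Results.MP_6c6e33_an.GaborOrbit

/-!
# Every ordering of a Riesz basis is the orbit of a bounded operator
-/

set_option autoImplicit false

open MeasureTheory

namespace Pool.Agent.V11113

open Pool.Agent.Results.MP_6c6e33_an.GaborOrbit

/-- The sequence `F` is the orbit of a bounded operator: there is a bounded linear operator `T`
from the linear span of `F` to the space with `T (F k) = F (k + 1)` for all indices `k`. -/
def IsBoundedOrbit {H : Type*} [NormedAddCommGroup H] [InnerProductSpace ℂ H]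
    {I : Type*} [Add I] [One I] (F : I → H) : Prop :=
  ∃ T : Submodule.span ℂ (Set.range F) →L[ℂ] H,
    ∀ k, T ⟨F k, Submodule.subset_span ⟨k, rfl⟩⟩ = F (k + 1)

lemma IsBoundedOrbit.has {H : Type*} [NormedAddCommGroup H] [InnerProductSpace ℂ H]
    {I : Type*} [Add I] [One I] {F : I → H} (h : IsBoundedOrbit F) : HasBoundedOrbit F := by
  classical
  obtain ⟨T, hT⟩ := h
  refine ⟨fun x => if h : x ∈ Submodule.span ℂ (Set.range F) then T ⟨x, h⟩ else 0,
    ⟨?_, ?_, ‖T‖, ?_⟩, ?_⟩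
  · intro x hx y hy
    have h1 : x ∈ Submodule.span ℂ (Set.range F) := hx
    have h2 : y ∈ Submodule.span ℂ (Set.range F) := hy
    have h3 : x + y ∈ Submodule.span ℂ (Set.range F) := Submodule.add_mem _ h1 h2
    rw [dif_pos h1, dif_pos h2, dif_pos h3]
    exact T.map_add ⟨x, h1⟩ ⟨y, h2⟩
  · intro c x hx
    have h1 : x ∈ Submodule.span ℂ (Set.range F) := hx
    have h3 : c • x ∈ Submodule.span ℂ (Set.range F) := Submodule.smul_mem _ c h1
    rw [dif_pos h1, dif_pos h3]
    exact T.map_smul c ⟨x, h1⟩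
  · intro x hx
    have h1 : x ∈ Submodule.span ℂ (Set.range F) := hx
    rw [dif_pos h1]
    exact T.le_opNorm ⟨x, h1⟩
  · intro k
    have h1 : F k ∈ Submodule.span ℂ (Set.range F) := Submodule.subset_span ⟨k, rfl⟩
    beta_reduce
    rw [dif_pos h1]
    exact hT k

lemma riesz_reindex {H : Type*} [NormedAddCommGroup H] [InnerProductSpace ℂ H] {ι κ : Type*}
    (f : ι → H) (A B : ℝ) (h : ∀ (s : Finset ι) (c : ι → ℂ),
      A * ∑ i ∈ s, ‖c i‖ ^ 2 ≤ ‖∑ i ∈ s, c i • f i‖ ^ 2 ∧
      ‖∑ i ∈ s, c i • f i‖ ^ 2 ≤ B * ∑ i ∈ s, ‖c i‖ ^ 2)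
    (j : κ → ι) (hj : Function.Injective j) (s : Finset κ) (c : κ → ℂ) :
    A * ∑ i ∈ s, ‖c i‖ ^ 2 ≤ ‖∑ i ∈ s, c i • f (j i)‖ ^ 2 ∧
      ‖∑ i ∈ s, c i • f (j i)‖ ^ 2 ≤ B * ∑ i ∈ s, ‖c i‖ ^ 2 := by
  have h1 := h (s.map ⟨j, hj⟩) (Function.extend j c 0)
  rw [Finset.sum_map, Finset.sum_map] at h1
  simpa only [Function.Embedding.coeFn_mk, hj.extend_apply] using h1

/-- Every sequence obtained by an injective indexing from a Riesz basis, and shifted injectively,
is the orbit of a bounded operator. -/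
theorem riesz_orbit {H : Type*} [NormedAddCommGroup H] [InnerProductSpace ℂ H] {ι : Type*}
    (f : ι → H) (hf : IsRieszBasis f) {I : Type*} [Add I] [One I]
    (hI : Function.Injective (fun k : I => k + 1)) (σ : I → ι) (hσ : Function.Injective σ) :
    IsBoundedOrbit (fun k => f (σ k)) := by
  obtain ⟨-, A, B, hA, hB, h⟩ := hf
  have h0 := riesz_reindex f A B h σ hσ
  have h1 := riesz_reindex f A B h (fun k => σ (k + 1)) (hσ.comp hI)
  have hli : LinearIndependent ℂ (fun k => f (σ k)) := by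
    rw [linearIndependent_iff]
    intro c hc
    rw [Finsupp.linearCombination_apply, Finsupp.sum] at hc
    have h2 := (h0 c.support c).1
    rw [hc] at h2
    have h3 : ∑ i ∈ c.support, ‖c i‖ ^ 2 ≤ 0 := by
      by_contra hcon
      push Not at hcon
      have := mul_pos hA hcon
      simp at h2
      linarith
    have h4 := (Finset.sum_eq_zero_iff_of_nonneg (fun i _ => sq_nonneg ‖c i‖)).1
      (le_antisymm h3 (Finset.sum_nonneg fun i _ => sq_nonneg _))
    ext k
    by_cases hk : k ∈ c.support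
    · have := h4 k hk
      simpa using this
    · simpa using hk
  set L : Submodule.span ℂ (Set.range (fun k => f (σ k))) →ₗ[ℂ] H :=
    (Finsupp.linearCombination ℂ (fun k => f (σ (k + 1)))).comp hli.repr with hL
  refine ⟨LinearMap.mkContinuous L (Real.sqrt (B / A)) ?_, ?_⟩
  · intro x
    have e1 : (x : H) = ∑ k ∈ (hli.repr x).support, (hli.repr x) k • f (σ k) := by
      have := hli.linearCombination_repr x
      rw [Finsupp.linearCombination_apply, Finsupp.sum] at this
      exact this.symm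
    have e2 : L x = ∑ k ∈ (hli.repr x).support, (hli.repr x) k • f (σ (k + 1)) := by
      rw [hL, LinearMap.comp_apply, Finsupp.linearCombination_apply, Finsupp.sum]
    have h2 := (h0 (hli.repr x).support (hli.repr x)).1
    have h3 := (h1 (hli.repr x).support (hli.repr x)).2
    rw [← e1] at h2
    rw [← e2] at h3
    apply le_of_sq_le_sq _ (by positivity)
    rw [mul_pow, Real.sq_sqrt (by positivity)]
    have h4 : ∑ i ∈ (hli.repr x).support, ‖(hli.repr x) i‖ ^ 2 ≤ ‖(x : H)‖ ^ 2 / A := by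
      rw [le_div_iff₀ hA, mul_comm]
      exact h2
    calc ‖L x‖ ^ 2 ≤ B * ∑ i ∈ (hli.repr x).support, ‖(hli.repr x) i‖ ^ 2 := h3
      _ ≤ B * (‖(x : H)‖ ^ 2 / A) := by gcongr
      _ = B / A * ‖x‖ ^ 2 := by rw [Submodule.norm_coe]; ring
  · intro k
    rw [LinearMap.mkContinuous_apply, hL, LinearMap.comp_apply,
      hli.repr_eq_single k _ rfl, Finsupp.linearCombination_single, one_smul]

/-- Gabor frames: a bounded representation in some ordering forces the Riesz basis property, and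
for Riesz bases every ordering has one. -/
theorem gabor_iff (a b : ℝ) (ha : 0 < a) (hb : 0 < b) (g : L2) (f : ℤ × ℤ → L2)
    (hf : IsGaborSystem a b g f) (hframe : IsFrame f) :
    ((∃ σ : ℕ ≃ ℤ × ℤ, IsBoundedOrbit (fun k => f (σ k))) → IsRieszBasis f) ∧
    ((∃ σ : ℤ ≃ ℤ × ℤ, IsBoundedOrbit (fun k => f (σ k))) → IsRieszBasis f) ∧
    (IsRieszBasis f → (∀ σ : ℕ ≃ ℤ × ℤ, IsBoundedOrbit (fun k => f (σ k))) ∧
      ∀ σ : ℤ ≃ ℤ × ℤ, IsBoundedOrbit (fun k => f (σ k))) := by
  refine ⟨?_, ?_, fun h => ⟨fun σ => ?_, fun σ => ?_⟩⟩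
  · rintro ⟨σ, hσ⟩
    by_contra hcon
    exact (Pool.Agent.Results.MP_6c6e33_an.GaborOrbit.result a b ha hb g f hf
      ⟨hframe, hcon⟩).1 ⟨σ, hσ.has⟩
  · rintro ⟨σ, hσ⟩
    by_contra hcon
    exact (Pool.Agent.Results.MP_6c6e33_an.GaborOrbit.result a b ha hb g f hf
      ⟨hframe, hcon⟩).2 ⟨σ, hσ.has⟩
  · exact riesz_orbit f h (add_left_injective 1) σ σ.injective
  · exact riesz_orbit f h (add_left_injective 1) σ σ.injective

end Pool.Agent.V11113
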